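import Pool.Agent.Run7.h104.Q2.Defs

set_option autoImplicit false

/-!
# MP_5bfbcb_an, Q2: piece RI0

The rotation inequality with the `l^2` norm of the negative coefficients in place of one coefficient.
-/

namespace Pool.Agent.Run7.h862.Q2

open MeasureTheory AddCircle Complex Set Filter Topology Pool.Agent.W767.HL Pool.Agent.Run7.h104.Q2

noncomputable section

lemma inv_iter2 {L : ℕ} {m : ℕ → ℕ} {G : ℤ →₀ ℂ} {s : ℝ} {M K j0 : ℕ} (hL : 0 < L) (hs : 0 < s)
    (hm : StrictMono m) (hgap : ∀ j, L ≤ j → m (j - L) + m (j - 1) ≤ m j)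
    (hM : ∀ j, j0 < j → M + m (j - 1) ≤ m j)
    (hG : ∀ n : ℤ, n < -(m K : ℤ) → G n = 0)
    (hG2 : ∀ j, 1 ≤ j → ∀ n : ℤ, -(m j : ℤ) < n → n < -(m (j - 1) : ℤ) → G n = 0) :
    ∀ d : ℕ, j0 + d ≤ K → ∃ (eF : ℤ →₀ ℂ) (e : ℕ → (ℤ →₀ ℂ)) (t : ℕ → ℝ) (C : ℝ),
      Inv L m G s M (K - d) eF e t C ∧
      C ^ 2 * ∑ j ∈ Finset.Icc (K - d + 1) K, ‖G (-(m j : ℤ))‖ ^ 2 ≤ ∑ i ∈ Finset.range L, t i ^ 2 := by
  intro d
  induction d with
  | zero =>
    intro _
    refine ⟨_, _, _, _, inv_start hs hG, ?_⟩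
    have : Finset.Icc (K - 0 + 1) K = ∅ := by
      rw [Finset.Icc_eq_empty]; omega
    rw [this]
    simp only [Finset.sum_empty, mul_zero]
    exact Finset.sum_nonneg fun _ _ => sq_nonneg _
  | succ d ih =>
      intro hd
      obtain ⟨eF, e, t, C, h, hsum⟩ := ih (by omega)
      obtain ⟨eF', e', t', C', h', hne, hi⟩ := inv_step hL hs hm (hgap _) (hM _ (by omega)) (by omega)
        (hG2 _ (by omega)) h
      refine ⟨eF', e', t', C', h', ?_⟩
      set j := K - d with hj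
      set i := j % L with hidef
      have hiL : i < L := Nat.mod_lt _ hL
      have hti0 : ∀ k < L, 0 < t k := fun k hk => hs.trans_le (h.t_ge k hk)
      have hti0' : ∀ k < L, 0 < t' k := fun k hk => hs.trans_le (h'.t_ge k hk)
      have hle : ∀ k < L, t k ≤ t' k := by
        intro k hk
        by_cases hki : k = i
        · rw [hki]
          refine le_of_sq_le_sq ?_ (hti0' i hiL).le
          rw [hi]
          nlinarith [mul_nonneg (sq_nonneg C) (sq_nonneg ‖G (-(m j : ℤ))‖)]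
        · rw [hne k hk hki]
      have hprod : ∏ k ∈ Finset.range L, t k ≤ ∏ k ∈ Finset.range L, t' k :=
        Finset.prod_le_prod (fun k hk => (hti0 k (Finset.mem_range.1 hk)).le)
          (fun k hk => hle k (Finset.mem_range.1 hk))
      have hp0 : 0 < ∏ k ∈ Finset.range L, t k :=
        Finset.prod_pos fun k hk => hti0 k (Finset.mem_range.1 hk)
      have hp0' : 0 < ∏ k ∈ Finset.range L, t' k :=
        Finset.prod_pos fun k hk => hti0' k (Finset.mem_range.1 hk)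
      have hCC : C' ≤ C := by
        by_contra hcon
        push Not at hcon
        have h1 : C * ∏ k ∈ Finset.range L, t k < C' * ∏ k ∈ Finset.range L, t' k :=
          mul_lt_mul hcon hprod hp0 h'.C_pos.le
        rw [h.C_eq, h'.C_eq] at h1
        exact lt_irrefl _ h1
      have hCC2 : C' ^ 2 ≤ C ^ 2 := pow_le_pow_left₀ h'.C_pos.le hCC 2
      have hIcc : Finset.Icc (K - (d + 1) + 1) K = insert j (Finset.Icc (K - d + 1) K) := by
        ext x
        simp only [Finset.mem_Icc, Finset.mem_insert]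
        omega
      have hnot : j ∉ Finset.Icc (K - d + 1) K := by
        simp only [Finset.mem_Icc]
        omega
      rw [hIcc, Finset.sum_insert hnot]
      have hS0 : 0 ≤ ∑ j ∈ Finset.Icc (K - d + 1) K, ‖G (-(m j : ℤ))‖ ^ 2 :=
        Finset.sum_nonneg fun _ _ => sq_nonneg _
      have hsplit : ∑ k ∈ Finset.range L, t' k ^ 2
          = ∑ k ∈ Finset.range L, t k ^ 2 + C ^ 2 * ‖G (-(m j : ℤ))‖ ^ 2 := by
        rw [← Finset.add_sum_erase (Finset.range L) _ (Finset.mem_range.mpr hiL),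
          ← Finset.add_sum_erase (Finset.range L) (fun k => t k ^ 2) (Finset.mem_range.mpr hiL), hi]
        have : ∑ x ∈ (Finset.range L).erase i, t' x ^ 2 = ∑ x ∈ (Finset.range L).erase i, t x ^ 2 := by
          refine Finset.sum_congr rfl fun x hx => ?_
          rw [hne x (Finset.mem_range.1 (Finset.mem_of_mem_erase hx)) (Finset.ne_of_mem_erase hx)]
        rw [this]; ring
      rw [hsplit]
      calc C' ^ 2 * (‖G (-(m j : ℤ))‖ ^ 2 + ∑ j ∈ Finset.Icc (K - d + 1) K, ‖G (-(m j : ℤ))‖ ^ 2)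
          ≤ C ^ 2 * (‖G (-(m j : ℤ))‖ ^ 2 + ∑ j ∈ Finset.Icc (K - d + 1) K, ‖G (-(m j : ℤ))‖ ^ 2) :=
            mul_le_mul_of_nonneg_right hCC2 (add_nonneg (sq_nonneg _) hS0)
        _ = C ^ 2 * ∑ j ∈ Finset.Icc (K - d + 1) K, ‖G (-(m j : ℤ))‖ ^ 2 + C ^ 2 * ‖G (-(m j : ℤ))‖ ^ 2 := by
            ring
        _ ≤ _ := by linarith

theorem alg2 {L : ℕ} {m : ℕ → ℕ} {G : ℤ →₀ ℂ} {s : ℝ} {M K j0 : ℕ} (hL : 0 < L) (hs : 0 < s)
    (hm : StrictMono m) (hgap : ∀ j, L ≤ j → m (j - L) + m (j - 1) ≤ m j) (hK : j0 < K)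
    (hM : ∀ j, j0 < j → M + m (j - 1) ≤ m j)
    (hG : ∀ n : ℤ, n < -(m K : ℤ) → G n = 0)
    (hG2 : ∀ j, 1 ≤ j → ∀ n : ℤ, -(m j : ℤ) < n → n < -(m (j - 1) : ℤ) → G n = 0) {a : ℝ} (ha : 0 < a)
    (haS : a ^ 2 ≤ ∑ j ∈ Finset.Icc (j0 + 1) K, ‖G (-(m j : ℤ))‖ ^ 2) :
    ∃ (f : ℤ →₀ ℂ) (t : ℝ), s ≤ t ∧ (∀ n : ℤ, n < 0 → f n = 0) ∧ f 0 = t ∧
      (∀ n : ℤ, 0 < n → n < M → f n = 0) ∧
      (∀ z : ℂ, ‖z‖ = 1 → ‖ev f z‖ ^ 2 ≤ L * s ^ 2 + ‖ev G z‖ ^ 2) ∧
      s ^ L * a ≤ L * t ^ (L + 1) := by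
  obtain ⟨eF', e', t', C', h', hsum⟩ := inv_iter2 (M := M) (K := K) (j0 := j0) hL hs hm hgap hM hG hG2
    (K - j0) (by omega)
  have hKj : K - (K - j0) = j0 := by omega
  rw [hKj] at h' hsum
  obtain ⟨k, hkL, hkmax⟩ := Finset.exists_max_image (Finset.range L) t' ⟨0, Finset.mem_range.mpr hL⟩
  have hkL' : k < L := Finset.mem_range.mp hkL
  have htk : s ≤ t' k := h'.t_ge k hkL'
  have htk0 : 0 < t' k := hs.trans_le htk
  refine ⟨e' k, t' k, htk, h'.e_neg k hkL', h'.e_zero k hkL', h'.e_M k hkL', ?_, ?_⟩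
  · intro z hz
    have h1 := h'.norm_eq z hz
    have h2 := Finset.single_le_sum (f := fun i => ‖ev (e' i) z‖ ^ 2)
      (fun i _ => sq_nonneg _) hkL
    have h3 := sq_nonneg ‖ev eF' z‖
    linarith
  · have hL1 : (1 : ℝ) ≤ L := by exact_mod_cast hL
    have hti0 : ∀ i < L, 0 < t' i := fun i hi => hs.trans_le (h'.t_ge i hi)
    have h1 : (C' * a) ^ 2 ≤ L * t' k ^ 2 := by
      calc (C' * a) ^ 2 = C' ^ 2 * a ^ 2 := by ring
        _ ≤ C' ^ 2 * ∑ j ∈ Finset.Icc (j0 + 1) K, ‖G (-(m j : ℤ))‖ ^ 2 :=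
            mul_le_mul_of_nonneg_left haS (sq_nonneg _)
        _ ≤ ∑ i ∈ Finset.range L, t' i ^ 2 := hsum
        _ ≤ ∑ _i ∈ Finset.range L, t' k ^ 2 := Finset.sum_le_sum fun i hi =>
            pow_le_pow_left₀ (hti0 i (Finset.mem_range.1 hi)).le (hkmax i hi) 2
        _ = L * t' k ^ 2 := by rw [Finset.sum_const, Finset.card_range, nsmul_eq_mul]
    have h2 : C' * a ≤ L * t' k := by
      refine le_of_sq_le_sq (h1.trans ?_) (by positivity)
      rw [mul_pow]
      refine mul_le_mul_of_nonneg_right ?_ (sq_nonneg _)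
      nlinarith
    have h3 : ∏ i ∈ Finset.range L, t' i ≤ t' k ^ L := by
      calc ∏ i ∈ Finset.range L, t' i ≤ ∏ _i ∈ Finset.range L, t' k :=
            Finset.prod_le_prod (fun i hi => (hti0 i (Finset.mem_range.1 hi)).le) (fun i hi => hkmax i hi)
        _ = t' k ^ L := by rw [Finset.prod_const, Finset.card_range]
    calc s ^ L * a = (∏ i ∈ Finset.range L, t' i) * (C' * a) := by rw [← h'.C_eq]; ring
      _ ≤ t' k ^ L * (L * t' k) := mul_le_mul h3 h2 (mul_nonneg h'.C_pos.le ha.le) (by positivity)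
      _ = L * t' k ^ (L + 1) := by ring

theorem prove_RI0 : S_RI0 := by
  intro L hL m hm hgap M K j0 hK hM G hG hG2 w hw hw0 B hB hB0 s hs hs1 hsM a ha haS
  obtain ⟨f, t, hst, hneg, hf0, hfM, hle, hgrow⟩ := alg2 hL hs hm hgap hK hM hG hG2 ha haS
  have ht : 0 < t := hs.trans_le hst
  have hL1 : (1 : ℝ) ≤ L := by exact_mod_cast hL
  have hbd : ∀ θ, ‖ev f (ze θ)‖ ≤ L + ‖ev G (ze θ)‖ := by
    intro θ
    have h1 := hle _ (norm_ze θ)
    refine le_of_sq_le_sq (h1.trans ?_) (by positivity)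
    have h2 : s ^ 2 ≤ 1 := pow_le_one₀ hs.le hs1
    nlinarith [norm_nonneg (ev G (ze θ)), mul_nonneg (Nat.cast_nonneg (α := ℝ) L)
      (norm_nonneg (ev G (ze θ)))]
  have hcG := continuous_ev_ze G
  have hbi : Integrable (fun θ => (L : ℝ) + ‖ev G (ze θ)‖) mu :=
    integrable_of_cont (continuous_const.add hcG.norm)
  have hint : ∀ v : ℂ, ‖v‖ < 1 → ∫ θ, P v θ * ((L : ℝ) + ‖ev G (ze θ)‖) ∂mu
      = L + ∫ θ, P v θ * ‖ev G (ze θ)‖ ∂mu := by
    intro v hv
    have i1 : Integrable (fun θ => P v θ * (L : ℝ)) mu :=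
      integrable_of_cont ((continuous_P hv).mul continuous_const)
    have i2 : Integrable (fun θ => P v θ * ‖ev G (ze θ)‖) mu :=
      integrable_of_cont ((continuous_P hv).mul hcG.norm)
    simp only [mul_add]
    rw [integral_add i1 i2, integral_mul_const, integral_P hv, one_mul]
  have htle : t ≤ L + B := by
    have h1 := norm_poisson_le (differentiable_ev hneg) (w := 0) (by simp)
    have h2 : ev f 0 = t := by
      rw [ev_eq_sum, Finsupp.sum]
      rw [← hf0]
      by_cases h0 : (0 : ℤ) ∈ f.support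
      · rw [Finset.sum_eq_single 0]
        · simp
        · intro n _ hn
          rw [zero_zpow n hn, mul_zero]
        · exact fun h => absurd h0 h
      · rw [Finset.sum_eq_zero]
        · exact (Finsupp.notMem_support_iff.mp h0).symm
        · intro n hn
          have : n ≠ 0 := fun h => h0 (h ▸ hn)
          rw [zero_zpow n this, mul_zero]
    rw [h2, Complex.norm_real, Real.norm_of_nonneg ht.le] at h1
    refine h1.trans ?_
    have h3 : ∫ θ, P 0 θ * ‖ev f (ze θ)‖ ∂mu ≤ ∫ θ, P 0 θ * ((L : ℝ) + ‖ev G (ze θ)‖) ∂mu := by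
      refine integral_mono (integrable_of_cont ((continuous_P (by simp)).mul
        (continuous_ev_ze f).norm)) (integrable_of_cont ((continuous_P (by simp)).mul
        (continuous_const.add hcG.norm))) fun θ => ?_
      exact mul_le_mul_of_nonneg_left (hbd θ) (P_pos (by simp) θ).le
    rw [hint 0 (by simp)] at h3
    linarith
  have hclose : ‖ev f w - t‖ ≤ s / 2 := by
    refine (gap_bound hneg hf0 hfM ht.le hw hw0 hbi hbd).trans ?_
    rw [hint w hw]
    refine le_trans (mul_le_mul_of_nonneg_left ?_ (by positivity)) hsM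
    linarith
  have hlow : t / 2 ≤ ‖ev f w‖ := by
    have h1 := norm_sub_norm_le (t : ℂ) (t - ev f w)
    rw [sub_sub_cancel, Complex.norm_real, Real.norm_of_nonneg ht.le, norm_sub_rev] at h1
    linarith
  have hj := jensen (differentiable_ev hneg) (v := fun θ => L * s ^ 2 + ‖ev G (ze θ)‖ ^ 2)
    (continuous_const.add (hcG.norm.pow 2)) (fun θ => by positivity)
    (fun θ => hle _ (norm_ze θ)) hw
  have h2 : (t / 2) ^ 2 ≤ Real.exp (La w (L * s ^ 2) (fun θ => ev G (ze θ))) :=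
    (pow_le_pow_left₀ (by positivity) hlow 2).trans hj
  have h3 : 2 * Real.log (t / 2) ≤ La w (L * s ^ 2) (fun θ => ev G (ze θ)) := by
    have := Real.log_le_log (by positivity) h2
    rw [Real.log_exp, Real.log_pow] at this
    exact_mod_cast this
  have h4 : L * Real.log s + Real.log a - Real.log L ≤ (L + 1) * Real.log t := by
    have := Real.log_le_log (by positivity) hgrow
    rw [Real.log_mul (by positivity) ha.ne', Real.log_pow, Real.log_mul (by positivity) (by positivity),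
      Real.log_pow] at this
    push_cast at this
    linarith
  have h5 : (L * Real.log s + Real.log a - Real.log L) / (L + 1) ≤ Real.log t := by
    rw [div_le_iff₀ (by positivity)]
    linarith
  rw [Real.log_div ht.ne' two_ne_zero] at h3
  linarith

end

end Pool.Agent.Run7.h862.Q2
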