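import Pool.Agent.Run7.h862.Q2.RI1a

set_option autoImplicit false

/-!
# MP_5bfbcb_an, Q2: piece RI1
-/

namespace Pool.Agent.Run7.h862.Q2

open MeasureTheory AddCircle Complex Set Filter Topology Pool.Agent.W767.HL Pool.Agent.Run7.h104.Q2

noncomputable section

/-- `f (r z)` as a Laurent polynomial. -/
def scl (r : ℂ) (f : ℤ →₀ ℂ) : ℤ →₀ ℂ :=
  Finsupp.onFinset f.support (fun n => f n * r ^ n) (by
    intro n hn
    rw [Finsupp.mem_support_iff]
    intro h
    exact hn (by rw [h, zero_mul]))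

lemma scl_apply (r : ℂ) (f : ℤ →₀ ℂ) (n : ℤ) : scl r f n = f n * r ^ n := rfl

lemma ev_scl (r : ℂ) (f : ℤ →₀ ℂ) (z : ℂ) : ev (scl r f) z = ev f (r * z) := by
  rw [ev_eq_sum, ev_eq_sum, scl, Finsupp.onFinset_sum, Finsupp.sum]
  · refine Finset.sum_congr rfl fun n _ => ?_
    rw [mul_zpow]
    ring
  · intro n
    simp

lemma ev_scl_ze (y : ℝ) (f : ℤ →₀ ℂ) (θ : Ci) :
    ev (scl (Real.exp (-y) : ℂ) f) (ze θ) = ev f (pt y θ) := ev_scl _ _ _

lemma continuous_ev_pt (y : ℝ) (f : ℤ →₀ ℂ) : Continuous fun θ => ev f (pt y θ) := by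
  have : (fun θ => ev f (pt y θ)) = fun θ => ev (scl (Real.exp (-y) : ℂ) f) (ze θ) := by
    ext θ
    rw [ev_scl_ze]
  rw [this]
  exact continuous_ev_ze _

section KKfacts

variable {m : ℕ → ℕ} {J : ℕ} {G : ℤ →₀ ℂ} {D0 κ : ℝ}

lemma rho2_anti {j j' : ℕ} (h : j ≤ j') : rho2 m J G j' ≤ rho2 m J G j :=
  Finset.sum_le_sum_of_subset_of_nonneg (Finset.Icc_subset_Icc_left h) fun _ _ _ => sq_nonneg _

lemma KK_mono (hD : 0 ≤ D0) {a b : ℕ} (h : a ≤ b) : KK m J G D0 a ≤ KK m J G D0 b := by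
  unfold KK
  refine Nat.findGreatest_mono ?_ le_rfl
  intro j hj
  refine le_trans ?_ hj
  rw [Real.exp_le_exp]
  have h1 : (2 : ℝ) ^ a ≤ 2 ^ b := pow_le_pow_right₀ (by norm_num) h
  nlinarith

lemma KK_le (a : ℕ) : KK m J G D0 a ≤ J := Nat.findGreatest_le _

lemma KK_spec {a : ℕ} (h : 1 ≤ KK m J G D0 a) :
    Real.exp (-(2 * (2 ^ a * D0))) ≤ rho2 m J G (KK m J G D0 a) := by
  have h1 : KK m J G D0 a ≠ 0 := by omega
  exact Nat.findGreatest_of_ne_zero
    (P := fun j => Real.exp (-(2 * (2 ^ a * D0))) ≤ rho2 m J G j) rfl h1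

lemma KK_succ (a : ℕ) : rho2 m J G (KK m J G D0 a + 1) < Real.exp (-(2 * (2 ^ a * D0))) := by
  by_cases h : KK m J G D0 a + 1 ≤ J
  · exact not_le.1 (Nat.findGreatest_is_greatest
      (P := fun j => Real.exp (-(2 * (2 ^ a * D0))) ≤ rho2 m J G j) (Nat.lt_succ_self _) h)
  · unfold rho2
    rw [Finset.Icc_eq_empty (by omega), Finset.sum_empty]
    exact Real.exp_pos _

lemma ellf_succ_le (i : ℕ) : ellf κ m J G D0 (i + 1) ≤ ellf κ m J G D0 i := min_le_left _ _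

lemma ellf_antitone : Antitone (ellf κ m J G D0) := antitone_nat_of_succ_le ellf_succ_le

lemma ellf_le_one (i : ℕ) : ellf κ m J G D0 i ≤ 1 := by
  induction i with
  | zero => exact min_le_left _ _
  | succ i ih => exact (ellf_succ_le i).trans ih

lemma ellf_cases (i : ℕ) : ellf κ m J G D0 i = 1 ∨
    ∃ a ≤ i, ellf κ m J G D0 i = 2 ^ a * D0 / (κ * m (KK m J G D0 a)) := by
  induction i with
  | zero =>
    rcases min_choice 1 (D0 / (κ * m (KK m J G D0 0))) with h | h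
    · left; exact h
    · right
      refine ⟨0, le_rfl, ?_⟩
      rw [pow_zero, one_mul]
      exact h
  | succ i ih =>
    rcases min_choice (ellf κ m J G D0 i) (2 ^ (i + 1) * D0 / (κ * m (KK m J G D0 (i + 1)))) with h | h
    · have h' : ellf κ m J G D0 (i + 1) = ellf κ m J G D0 i := h
      rcases ih with h2 | ⟨a, ha, h2⟩
      · left; rw [h', h2]
      · right; exact ⟨a, by omega, by rw [h', h2]⟩
    · right
      exact ⟨i + 1, le_rfl, h⟩

lemma ellf_pos (hκ : 0 < κ) (hD : 0 < D0) (hm : ∀ a, 0 < m (KK m J G D0 a)) (i : ℕ) :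
    0 < ellf κ m J G D0 i := by
  have h : ∀ a, (0 : ℝ) < m (KK m J G D0 a) := fun a => by exact_mod_cast hm a
  rcases ellf_cases (κ := κ) (m := m) (J := J) (G := G) (D0 := D0) i with h1 | ⟨a, -, h1⟩
  · rw [h1]; norm_num
  · rw [h1]
    have := h a
    positivity

end KKfacts

/-- The core estimate at one point. -/
lemma core (hRI0 : S_RI0) {L : ℕ} {η : ℝ} {m : ℕ → ℕ} {J : ℕ} {G : ℤ →₀ ℂ} (h : HLG L η m J G) {D0 : ℝ}
    (hD18 : 18 ≤ D0)
    (hc : 2 * Real.log L + Real.log 2 + 4 * Real.log 2 + Real.log (L + 1) ≤ D0)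
    (hLB : (L : ℝ) ≤ Real.exp (D0 / 2))
    (hK1 : 1 ≤ KK m J G D0 0) {a k : ℕ} (hak : a < k) {y : ℝ} (hy : 0 < y) {v : ℂ} (hv0 : v ≠ 0)
    (hv : ‖v‖ < 1)
    (hB : ∫ θ, P v θ * ‖ev (ff m J G D0 k) (pt y θ)‖ ∂mu ≤ Real.exp (D0 / 2))
    (hB0 : ∫ θ, P 0 θ * ‖ev (ff m J G D0 k) (pt y θ)‖ ∂mu ≤ Real.exp (D0 / 2))
    (hvM : ‖v‖ ^ ⌊η * m (KK m J G D0 a)⌋₊ * (2 * (L + Real.exp (D0 / 2)))
      ≤ Real.exp (-(4 * (L + 1) * (2 ^ a * D0))) / 2) :
    PI (fun θ => if ‖ev (ff m J G D0 k) (pt y θ)‖ ≤ Real.exp (-(4 * (L + 1) * (2 ^ a * D0)))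
      then 1 else 0) v ≤ 1 - 5 / 8 / (L + 1) := by
  have hL := h.hL
  have hD0 : 0 < D0 := by linarith
  set T : ℝ := 2 ^ a * D0 with hT
  have h2a : (1 : ℝ) ≤ 2 ^ a := one_le_pow₀ (by norm_num)
  have hDT : D0 ≤ T := by rw [hT]; nlinarith
  have hT0 : 0 < T := by linarith
  set Ka := KK m J G D0 a with hKa
  set Kk := KK m J G D0 k with hKk
  have hKa1 : 1 ≤ Ka := hK1.trans (KK_mono hD0.le (Nat.zero_le a))
  have hKak : Ka ≤ Kk := KK_mono hD0.le hak.le
  have hKkJ : Kk ≤ J := KK_le k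
  set s : ℝ := Real.exp (-(4 * (L + 1) * T)) with hs
  have hs0 : 0 < s := Real.exp_pos _
  have hs1 : s ≤ 1 := by
    rw [hs, Real.exp_le_one_iff]
    have : (0 : ℝ) ≤ 4 * (L + 1) * T := by positivity
    linarith
  set r : ℂ := ((Real.exp (-y) : ℝ) : ℂ) with hr
  set G' : ℤ →₀ ℂ := scl r (ff m J G D0 k) with hG'
  have hffn : ∀ n : ℤ, ff m J G D0 k n = if -(m Kk : ℤ) ≤ n then G n else 0 := by
    intro n
    unfold ff cut
    rw [Finsupp.filter_apply]
  have hG'n : ∀ n : ℤ, G' n = (if -(m Kk : ℤ) ≤ n then G n else 0) * r ^ n := by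
    intro n
    rw [hG', scl_apply, hffn]
  have hev : ∀ θ, ev G' (ze θ) = ev (ff m J G D0 k) (pt y θ) := fun θ => ev_scl_ze y _ θ
  have hG1 : ∀ n : ℤ, n < -(m Kk : ℤ) → G' n = 0 := by
    intro n hn
    rw [hG'n, if_neg (by omega), zero_mul]
  have hG2 : ∀ j, 1 ≤ j → ∀ n : ℤ, -(m j : ℤ) < n → n < -(m (j - 1) : ℤ) → G' n = 0 := by
    intro j hj n h1 h2
    rw [hG'n]
    split_ifs
    · rw [h.hG2 j hj n h1 h2, zero_mul]
    · rw [zero_mul]
  set M := ⌊η * m Ka⌋₊ with hMdef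
  have hM : ∀ j, Ka - 1 < j → M + m (j - 1) ≤ m j := by
    intro j hj
    have h1 : (M : ℝ) ≤ η * m Ka := Nat.floor_le (mul_nonneg h.hη.le (Nat.cast_nonneg _))
    have h2 : m Ka ≤ m j := h.hm.monotone (by omega)
    have h3 : (m Ka : ℝ) ≤ m j := by exact_mod_cast h2
    have h4 := h.hsep j (by omega)
    have h5 : η * (m Ka : ℝ) ≤ η * m j := mul_le_mul_of_nonneg_left h3 h.hη.le
    have h6 : (M : ℝ) + m (j - 1) ≤ m j := by linarith
    exact_mod_cast h6
  -- the coefficients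
  have hterm : ∀ j ∈ Finset.Icc Ka Kk, ‖G (-(m j : ℤ))‖ ^ 2 ≤ ‖G' (-(m j : ℤ))‖ ^ 2 := by
    intro j hj
    rw [Finset.mem_Icc] at hj
    have h1 : m j ≤ m Kk := h.hm.monotone hj.2
    rw [hG'n, if_pos (by omega), norm_mul]
    refine pow_le_pow_left₀ (norm_nonneg _) ?_ 2
    refine le_mul_of_one_le_right (norm_nonneg _) ?_
    rw [norm_zpow, hr, Complex.norm_real, Real.norm_of_nonneg (Real.exp_pos _).le, zpow_neg,
      zpow_natCast, ← inv_pow]
    refine one_le_pow₀ ?_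
    rw [← Real.exp_neg, neg_neg]
    exact Real.one_le_exp hy.le
  have hsum : Real.exp (-(2 * T)) / 2 ≤ ∑ j ∈ Finset.Icc (Ka - 1 + 1) Kk, ‖G' (-(m j : ℤ))‖ ^ 2 := by
    have e1 : Ka - 1 + 1 = Ka := by omega
    rw [e1]
    refine le_trans ?_ (Finset.sum_le_sum hterm)
    have e2 : rho2 m J G Ka = ∑ j ∈ Finset.Icc Ka Kk, ‖G (-(m j : ℤ))‖ ^ 2 + rho2 m J G (Kk + 1) := by
      unfold rho2
      have hu : Finset.Icc Ka J = Finset.Icc Ka Kk ∪ Finset.Icc (Kk + 1) J := by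
        ext x
        simp only [Finset.mem_Icc, Finset.mem_union]
        omega
      have hdis : Disjoint (Finset.Icc Ka Kk) (Finset.Icc (Kk + 1) J) := by
        rw [Finset.disjoint_left]
        intro x hx hx'
        rw [Finset.mem_Icc] at hx hx'
        omega
      rw [hu, Finset.sum_union hdis]
    have h1 := KK_spec (m := m) (J := J) (G := G) (D0 := D0) (a := a) hKa1
    have h2 := KK_succ (m := m) (J := J) (G := G) (D0 := D0) k
    have h3 : Real.exp (-(2 * (2 ^ k * D0))) ≤ Real.exp (-(2 * T)) / 2 := by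
      have h4 : (2 : ℝ) ^ (a + 1) ≤ 2 ^ k := pow_le_pow_right₀ (by norm_num) hak
      have h5 : 2 * T ≤ 2 ^ k * D0 := by
        rw [hT]
        calc 2 * (2 ^ a * D0) = 2 ^ (a + 1) * D0 := by ring
          _ ≤ 2 ^ k * D0 := mul_le_mul_of_nonneg_right h4 hD0.le
      have h6 : Real.exp (-(2 * (2 ^ k * D0))) ≤ Real.exp (-(2 * T) + -(2 * T)) := by
        rw [Real.exp_le_exp]; linarith
      rw [Real.exp_add] at h6
      refine h6.trans ?_
      have h7 : Real.exp (-(2 * T)) ≤ 1 / 2 := by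
        rw [Real.exp_neg, ← one_div]
        refine one_div_le_one_div_of_le (by norm_num) ?_
        have := Real.add_one_le_exp (2 * T)
        linarith
      have h8 := Real.exp_pos (-(2 * T))
      nlinarith
    have h1' : Real.exp (-(2 * T)) ≤ rho2 m J G Ka := h1
    have h2' : rho2 m J G (Kk + 1) < Real.exp (-(2 * (2 ^ k * D0))) := h2
    linarith
  set a' : ℝ := √(Real.exp (-(2 * T)) / 2) with ha'
  have ha0 : 0 < a' := Real.sqrt_pos.mpr (by positivity)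
  have ha2 : a' ^ 2 = Real.exp (-(2 * T)) / 2 := Real.sq_sqrt (by positivity)
  have hloga : Real.log a' = -T - Real.log 2 / 2 := by
    rw [ha', Real.log_sqrt (by positivity), Real.log_div (Real.exp_pos _).ne' (by norm_num), Real.log_exp]
    ring
  have hlogs : Real.log s = -(4 * (L + 1) * T) := by rw [hs, Real.log_exp]
  have hB' : ∫ θ, P v θ * ‖ev G' (ze θ)‖ ∂mu ≤ Real.exp (D0 / 2) := by
    simp only [hev]; exact hB
  have hB0' : ∫ θ, P 0 θ * ‖ev G' (ze θ)‖ ∂mu ≤ Real.exp (D0 / 2) := by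
    simp only [hev]; exact hB0
  have key := hRI0 hL h.hm h.hgap (M := M) (K := Kk) (j0 := Ka - 1) (by omega) hM hG1 hG2 hv hv0 hB' hB0'
    hs0 hs1 hvM ha0 (ha2.le.trans hsum)
  have up := La_up hv hL hs0 hs1 (continuous_ev_ze G') (Real.exp_pos _).le hB'
  rw [hlogs, hloga] at key
  rw [hlogs] at up
  have := core_arith hL hD0 hDT hc rfl hLB key up
  simp only [hev] at this
  exact this

lemma PI_small {z : ℂ} (hz : ‖z‖ ≤ 1 / 3) {g : Ci → ℂ} (hg : Continuous g) :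
    PI (fun θ => ‖g θ‖) z ≤ 1 + ∫ θ, ‖g θ‖ ^ 2 ∂mu := by
  have hsq : Continuous fun θ => ‖g θ‖ ^ 2 := hg.norm.pow 2
  unfold PI
  have h1 : ∫ θ, P z θ * ‖g θ‖ ∂mu ≤ ∫ θ, (1 + ‖g θ‖ ^ 2) ∂mu := by
    refine integral_mono (integrable_P_cont (by linarith) hg.norm)
      ((integrable_const 1).add (integrable_of_cont hsq)) fun θ => ?_
    have h2 := P_le' hz (by norm_num) θ
    have h3 := norm_nonneg (g θ)
    norm_num at h2
    simp only
    nlinarith [sq_nonneg (‖g θ‖ - 1), mul_le_mul_of_nonneg_right h2 h3]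
  rw [integral_add (integrable_const 1) (integrable_of_cont hsq)] at h1
  simpa using h1

lemma sq_small {g : Ci → ℂ} (hg : Continuous g) {X : ℝ}
    (h : PI (fun θ => ‖g θ‖ ^ 2) (1 / 3 : ℂ) ≤ X) : ∫ θ, ‖g θ‖ ^ 2 ∂mu ≤ 2 * X := by
  have hsq : Continuous fun θ => ‖g θ‖ ^ 2 := hg.norm.pow 2
  have hn : ‖(1 / 3 : ℂ)‖ ≤ 1 / 3 := by
    rw [norm_div, norm_one]
    norm_num
  have h1 : ∫ θ, ‖g θ‖ ^ 2 ∂mu ≤ ∫ θ, 2 * (P (1 / 3 : ℂ) θ * ‖g θ‖ ^ 2) ∂mu := by
    refine integral_mono (integrable_of_cont hsq)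
      ((integrable_P_cont (by linarith) hsq).const_mul 2) fun θ => ?_
    have h2 := P_ge hn (by norm_num) θ
    norm_num at h2
    simp only
    nlinarith [mul_le_mul_of_nonneg_right h2 (sq_nonneg ‖g θ‖)]
  rw [integral_const_mul] at h1
  unfold PI at h
  linarith

/-- Bound of the Poisson integral of the truncated function on a circle. -/
lemma B_bound {m : ℕ → ℕ} {J : ℕ} {G : ℤ →₀ ℂ} {D0 κ : ℝ} {k : ℕ}
    (hnice : ∀ z : ℂ, z ≠ 0 → ‖z‖ < 1 → dep z ≤ κ / 4 * ellf κ m J G D0 k →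
      ‖ev (ff m J G D0 k) z‖ ≤ PI (fun θ => ‖ev G (ze θ)‖) z
        + PI (fun θ => ‖ev (G - ff m J G D0 k) (ze θ)‖) z + Real.exp (D0 / 3))
    {y : ℝ} (hy : 0 < y) (hyk : y ≤ κ / 4 * ellf κ m J G D0 k) {v : ℂ} (hv : ‖v‖ < 1) :
    ∫ θ, P v θ * ‖ev (ff m J G D0 k) (pt y θ)‖ ∂mu ≤
      PI (fun θ => ‖ev G (ze θ)‖) ((Real.exp (-y) : ℂ) * v)
        + PI (fun θ => ‖ev (G - ff m J G D0 k) (ze θ)‖) ((Real.exp (-y) : ℂ) * v) + Real.exp (D0 / 3) := by
  obtain ⟨i1, e1⟩ := PI_semi hv hy (continuous_ev_ze G).norm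
  obtain ⟨i2, e2⟩ := PI_semi hv hy (continuous_ev_ze (G - ff m J G D0 k)).norm
  have i3 : Integrable (fun θ => P v θ * Real.exp (D0 / 3)) mu := integrable_P_cont hv continuous_const
  have h1 : ∫ θ, P v θ * ‖ev (ff m J G D0 k) (pt y θ)‖ ∂mu ≤
      ∫ θ, (P v θ * PI (fun θ => ‖ev G (ze θ)‖) (pt y θ)
        + P v θ * PI (fun θ => ‖ev (G - ff m J G D0 k) (ze θ)‖) (pt y θ) + P v θ * Real.exp (D0 / 3)) ∂mu := by
    refine integral_mono (integrable_P_cont hv (continuous_ev_pt y _).norm) ((i1.add i2).add i3) fun θ => ?_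
    have hn : ‖pt y θ‖ = Real.exp (-y) := norm_pt y θ
    have hne : pt y θ ≠ 0 := by
      rw [← norm_pos_iff, hn]; exact Real.exp_pos _
    have hlt : ‖pt y θ‖ < 1 := by rw [hn, Real.exp_lt_one_iff]; linarith
    have hdep : dep (pt y θ) = y := by unfold dep; rw [hn, Real.log_exp, neg_neg]
    have := mul_le_mul_of_nonneg_left (hnice (pt y θ) hne hlt (by rw [hdep]; exact hyk)) (P_pos hv θ).le
    simp only
    refine this.trans (le_of_eq ?_)
    ring
  have i12 : Integrable (fun θ => P v θ * PI (fun θ => ‖ev G (ze θ)‖) (pt y θ)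
        + P v θ * PI (fun θ => ‖ev (G - ff m J G D0 k) (ze θ)‖) (pt y θ)) mu := i1.add i2
  rw [integral_add i12 i3, integral_add i1 i2, e1, e2, integral_mul_const, integral_P hv, one_mul] at h1
  exact h1

lemma exp_facts {D0 : ℝ} (hD : 18 ≤ D0) : Real.exp (D0 / 8) + 1 + Real.exp (D0 / 3) ≤ Real.exp (D0 / 2) ∧
    5 + Real.exp (D0 / 3) ≤ Real.exp (D0 / 2) ∧ 8 * Real.exp (D0 / 2) ≤ Real.exp D0 := by
  have h1 : Real.exp (D0 / 2) = Real.exp (D0 / 3) * Real.exp (D0 / 6) := by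
    rw [← Real.exp_add]; congr 1; ring
  have h2 : Real.exp D0 = Real.exp (D0 / 2) * Real.exp (D0 / 2) := by
    rw [← Real.exp_add]; congr 1; ring
  have h3 := Real.add_one_le_exp (D0 / 6)
  have h4 := Real.add_one_le_exp (D0 / 3)
  have h5 := Real.add_one_le_exp (D0 / 2)
  have h6 : Real.exp (D0 / 8) ≤ Real.exp (D0 / 3) := by rw [Real.exp_le_exp]; linarith
  have h7 : 4 ≤ Real.exp (D0 / 6) := by linarith
  have h8 : 7 ≤ Real.exp (D0 / 3) := by linarith
  have h9 : 8 ≤ Real.exp (D0 / 2) := by linarith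
  have h10 : Real.exp (D0 / 3) * 4 ≤ Real.exp (D0 / 3) * Real.exp (D0 / 6) :=
    mul_le_mul_of_nonneg_left h7 (by linarith)
  refine ⟨by rw [h1]; linarith, by rw [h1]; linarith, ?_⟩
  rw [h2]
  exact mul_le_mul_of_nonneg_right h9 (Real.exp_pos _).le

theorem prove_RI1 : S_RI0 → S_NICE → S_TAIL → S_RI1 := by
  intro hRI0 hNICE hTAIL L η hL hη hη1
  have hL1 : (1 : ℝ) ≤ L := by exact_mod_cast hL
  set A0 : ℝ := 4 * (L + 1) with hA0
  set κ : ℝ := η / (4 * (A0 + 1)) with hκ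
  have hA01 : 1 ≤ A0 := by rw [hA0]; linarith
  have hκ0 : 0 < κ := by rw [hκ]; positivity
  have hκ1 : κ ≤ 1 := by
    rw [hκ, div_le_one (by positivity)]
    linarith
  have hL10 : (0 : ℝ) < 10 * (L + 1) := by positivity
  refine ⟨κ, A0, 1 / (10 * (L + 1)), hκ0, hκ1, hA01, by positivity, ?_, ?_⟩
  · rw [div_le_one hL10]
    linarith
  obtain ⟨Dn, hN⟩ := hNICE L η κ hκ0 hκ1 hη
  obtain ⟨Dt, Ct, hT⟩ := hTAIL L η κ 1 hκ0 hκ1 hη one_pos
  refine ⟨max (max Dn Dt) (max 18 (2 * Real.log L + Real.log 2 + 4 * Real.log 2 + Real.log (L + 1))),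
    max Ct ⌈2 / η⌉₊, ?_⟩
  intro D0 hD0 m J G h hK1 hCm i k hik y hy hyk w hw0 hw hdep hPIG
  have hDn : Dn ≤ D0 := le_trans (le_max_left _ _) (le_trans (le_max_left _ _) hD0)
  have hDt : Dt ≤ D0 := le_trans (le_max_right _ _) (le_trans (le_max_left _ _) hD0)
  have hD18 : 18 ≤ D0 := le_trans (le_max_left _ _) (le_trans (le_max_right _ _) hD0)
  have hc : 2 * Real.log L + Real.log 2 + 4 * Real.log 2 + Real.log (L + 1) ≤ D0 :=
    le_trans (le_max_right _ _) (le_trans (le_max_right _ _) hD0)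
  have hDpos : 0 < D0 := by linarith
  have hCt : Ct ≤ m (KK m J G D0 0) := le_trans (le_max_left _ _) hCm
  have hCη : ⌈2 / η⌉₊ ≤ m (KK m J G D0 0) := le_trans (le_max_right _ _) hCm
  have hLB : (L : ℝ) ≤ Real.exp (D0 / 2) := by
    have hl2 : 0 ≤ Real.log 2 := Real.log_nonneg (by norm_num)
    have hlL1 : 0 ≤ Real.log ((L : ℝ) + 1) := Real.log_nonneg (by linarith)
    rw [← Real.log_le_iff_le_exp (by linarith)]
    linarith
  obtain ⟨hx1, hx2, hx3⟩ := exp_facts hD18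
  obtain ⟨hN1, -⟩ := hN D0 hDn m J G h hK1
  have hT' := hT D0 hDt m J G h hK1 hCt
  have hmKa : ∀ a, ⌈2 / η⌉₊ ≤ m (KK m J G D0 a) := fun a =>
    hCη.trans (h.hm.monotone (KK_mono hDpos.le (Nat.zero_le a)))
  have hmKa' : ∀ a, 2 / η ≤ (m (KK m J G D0 a) : ℝ) := fun a =>
    (Nat.le_ceil _).trans (by exact_mod_cast hmKa a)
  have hmKpos : ∀ a, (0 : ℝ) < m (KK m J G D0 a) := fun a => lt_of_lt_of_le (by positivity) (hmKa' a)
  have hηm : ∀ a, 2 ≤ η * m (KK m J G D0 a) := by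
    intro a
    have := hmKa' a
    rw [div_le_iff₀ hη] at this
    linarith
  have hellpos : ∀ j, 0 < ellf κ m J G D0 j := ellf_pos hκ0 hDpos fun a => by exact_mod_cast hmKpos a
  have hellk : ellf κ m J G D0 k ≤ ellf κ m J G D0 i := ellf_antitone hik.le
  have hcT : Continuous fun θ => ev (G - ff m J G D0 k) (ze θ) := continuous_ev_ze _
  have hcG : Continuous fun θ => ev G (ze θ) := continuous_ev_ze _
  have hy4 : y ≤ 1 / 4 * ellf κ m J G D0 k :=
    hyk.trans (mul_le_mul_of_nonneg_right (by linarith) (hellpos k).le)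
  have hf := continuous_ev_pt y (ff m J G D0 k)
  -- the tail
  have hexp1 : Real.exp (-(3 / 2 * (2 ^ k * D0))) ≤ 1 := by
    rw [Real.exp_le_one_iff]
    have : (0 : ℝ) < 2 ^ k * D0 := by positivity
    linarith
  have htail : ∀ z : ℂ, z ≠ 0 → ‖z‖ < 1 → ellf κ m J G D0 k ≤ dep z →
      PI (fun θ => ‖ev (G - ff m J G D0 k) (ze θ)‖ ^ 2) z ≤ 1 := by
    intro z hz0 hz hd
    exact (hT' k z hz0 hz (by rw [one_mul]; exact hd)).trans hexp1
  have h13 : ‖(1 / 3 : ℂ)‖ = 1 / 3 := by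
    rw [norm_div, norm_one]
    norm_num
  have hd13 : 1 ≤ dep (1 / 3 : ℂ) := by
    unfold dep
    rw [h13, one_div, Real.log_inv, neg_neg, Real.le_log_iff_exp_le (by norm_num)]
    have := Real.exp_one_lt_d9
    linarith
  have hsq2 : ∫ θ, ‖ev (G - ff m J G D0 k) (ze θ)‖ ^ 2 ∂mu ≤ 2 * 1 :=
    sq_small hcT (htail _ (by norm_num) (by rw [h13]; norm_num) ((ellf_le_one k).trans hd13))
  -- bounds near zero
  have hsmall : ∀ v : ℂ, ‖v‖ ≤ 1 / 3 →
      ∫ θ, P v θ * ‖ev (ff m J G D0 k) (pt y θ)‖ ∂mu ≤ Real.exp (D0 / 2) := by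
    intro v hv
    refine (B_bound (hN1 k) hy hyk (by linarith)).trans ?_
    have hz : ‖(Real.exp (-y) : ℂ) * v‖ ≤ 1 / 3 := by
      rw [norm_mul, Complex.norm_real, Real.norm_of_nonneg (Real.exp_pos _).le]
      have : Real.exp (-y) ≤ 1 := by rw [Real.exp_le_one_iff]; linarith
      nlinarith [norm_nonneg v]
    have h1 := PI_small hz hcG
    have h2 := PI_small hz hcT
    have h3 := h.hn
    linarith
  have h0 := hsmall 0 (by rw [norm_zero]; norm_num)
  -- the point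
  set v := up y w with hv
  have hexpyw : ((Real.exp (-y) : ℝ) : ℂ) * v = w := by
    rw [hv]
    unfold up
    rw [← mul_assoc, ← Complex.ofReal_mul, ← Real.exp_add, neg_add_cancel, Real.exp_zero, Complex.ofReal_one,
      one_mul]
  have hnw : ‖w‖ = Real.exp (-dep w) := by
    unfold dep
    rw [neg_neg, Real.exp_log (norm_pos_iff.2 hw0)]
  have hnv : ‖v‖ = Real.exp (-(dep w - y)) := by
    rw [hv]
    unfold up
    rw [norm_mul, Complex.norm_real, Real.norm_of_nonneg (Real.exp_pos _).le, hnw, ← Real.exp_add]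
    congr 1
    ring
  have hvne : v ≠ 0 := by
    rw [← norm_pos_iff, hnv]; exact Real.exp_pos _
  have hdv : ellf κ m J G D0 i / 2 ≤ dep w - y := by
    have := hellpos i
    linarith
  have hv1 : ‖v‖ < 1 := by
    rw [hnv, Real.exp_lt_one_iff]
    have := hellpos i
    linarith
  set q : ℝ → ℂ → ℝ := fun s v => PI (fun θ => if ‖ev (ff m J G D0 k) (pt y θ)‖ ≤ s then 1 else 0) v with hq
  change q (Real.exp (-(A0 * (2 ^ i * D0)))) v ≤ _
  rcases ellf_cases (κ := κ) (m := m) (J := J) (G := G) (D0 := D0) i with hell | ⟨a, hai, hell⟩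
  · -- the case `ell i = 1`
    set s := Real.exp (-(A0 * (2 ^ i * D0))) with hs
    have hs0 : 0 < s := Real.exp_pos _
    set B := Real.exp (D0 / 2) with hB
    have hB0 : 0 < B := Real.exp_pos _
    have hLBp : 0 < L + B := by linarith
    set δ : ℝ := min (1 / 3) (s / (4 * (L + B))) with hδ
    have hδ0 : 0 < δ := lt_min (by norm_num) (by positivity)
    have hδ1 : δ ≤ 1 / 3 := min_le_left _ _
    have hδ2 : δ ≤ s / (4 * (L + B)) := min_le_right _ _
    have hnδ : ‖(δ : ℂ)‖ = δ := by rw [Complex.norm_real, Real.norm_of_nonneg hδ0.le]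
    have hM1 : 1 ≤ ⌊η * (m (KK m J G D0 i) : ℝ)⌋₊ := by
      rw [Nat.one_le_floor_iff]
      linarith [hηm i]
    have hδM : ‖(δ : ℂ)‖ ^ ⌊η * (m (KK m J G D0 i) : ℝ)⌋₊ * (2 * (L + B)) ≤ s / 2 := by
      rw [hnδ]
      have h1 : δ ^ ⌊η * (m (KK m J G D0 i) : ℝ)⌋₊ ≤ δ := by
        calc δ ^ ⌊η * (m (KK m J G D0 i) : ℝ)⌋₊ ≤ δ ^ 1 :=
              pow_le_pow_of_le_one hδ0.le (by linarith) hM1
          _ = δ := pow_one δ
      calc δ ^ ⌊η * (m (KK m J G D0 i) : ℝ)⌋₊ * (2 * (L + B)) ≤ s / (4 * (L + B)) * (2 * (L + B)) :=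
            mul_le_mul_of_nonneg_right (h1.trans hδ2) (by positivity)
        _ = s / 2 := by field_simp; ring
    have hc1 := core hRI0 h hD18 hc hLB hK1 hik hy (v := (δ : ℂ)) (by exact_mod_cast hδ0.ne')
      (by rw [hnδ]; linarith) (hsmall _ (by rw [hnδ]; exact hδ1)) h0 hδM
    have hc2 : q s (δ : ℂ) ≤ 1 - 5 / 8 / (L + 1) := hc1
    -- Harnack
    have hv12 : ‖v‖ ≤ 1 / 2 := by
      rw [hnv]
      have h1 : 3 / 4 ≤ dep w - y := by
        rw [hell] at hdep hellk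
        linarith
      have h2 : Real.exp (-(dep w - y)) ≤ Real.exp (-(3 / 4)) := by rw [Real.exp_le_exp]; linarith
      have h3 : (2 : ℝ) ≤ Real.exp (3 / 4) := by
        have := Real.quadratic_le_exp_of_nonneg (show (0 : ℝ) ≤ 3 / 4 by norm_num)
        norm_num at this ⊢
        linarith
      have h4 : Real.exp (-(3 / 4)) ≤ 1 / 2 := by
        rw [Real.exp_neg, ← one_div]
        exact one_div_le_one_div_of_le (by norm_num) h3
      linarith
    have hH : 1 / 6 * (1 - q s (δ : ℂ)) ≤ 1 - q s v := by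
      have j1 := integrable_P_ind (v := (δ : ℂ)) (by rw [hnδ]; linarith) hf s
      have j2 := integrable_P_ind hv1 hf s
      have k1 : Integrable (P (δ : ℂ)) mu := integrable_of_cont (continuous_P (by rw [hnδ]; linarith))
      have k2 : Integrable (P v) mu := integrable_of_cont (continuous_P hv1)
      have e1 : 1 - q s (δ : ℂ) = ∫ θ, (P (δ : ℂ) θ - P (δ : ℂ) θ *
          (if ‖ev (ff m J G D0 k) (pt y θ)‖ ≤ s then (1 : ℝ) else 0)) ∂mu := by
        rw [integral_sub k1 j1, integral_P (by rw [hnδ]; linarith)]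
        rfl
      have e2 : 1 - q s v = ∫ θ, (P v θ - P v θ *
          (if ‖ev (ff m J G D0 k) (pt y θ)‖ ≤ s then (1 : ℝ) else 0)) ∂mu := by
        rw [integral_sub k2 j2, integral_P hv1]
        rfl
      rw [e1, e2, ← integral_const_mul]
      refine integral_mono ((k1.sub j1).const_mul _) (k2.sub j2) fun θ => ?_
      have p1 := P_le' (z := (δ : ℂ)) (ρ := 1 / 3) (by rw [hnδ]; exact hδ1) (by norm_num) θ
      have p2 := P_ge (z := v) (ρ := 1 / 2) hv12 (by norm_num) θ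
      norm_num at p1 p2
      simp only
      split_ifs
      · simp
      · simp only [mul_zero, sub_zero]
        linarith
    have e3 : 1 / (10 * ((L : ℝ) + 1)) = 1 / 10 / (L + 1) := by rw [div_div]
    have e4 : 5 / 48 / ((L : ℝ) + 1) = 1 / 6 * (5 / 8 / (L + 1)) := by ring
    have e5 : 1 / 10 / ((L : ℝ) + 1) ≤ 5 / 48 / (L + 1) := by
      refine div_le_div_of_nonneg_right (by norm_num) (by positivity)
    rw [e3]
    linarith
  · -- the case `ell i < 1`
    set T : ℝ := 2 ^ a * D0 with hTdef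
    have h2a : (1 : ℝ) ≤ 2 ^ a := one_le_pow₀ (by norm_num)
    have hDT : D0 ≤ T := by rw [hTdef]; nlinarith
    have hT0 : 0 < T := by linarith
    have hBv : ∫ θ, P v θ * ‖ev (ff m J G D0 k) (pt y θ)‖ ∂mu ≤ Real.exp (D0 / 2) := by
      refine (B_bound (hN1 k) hy hyk hv1).trans ?_
      rw [hexpyw]
      have h2 := PI_le_sq hw hcT
      have h3 := htail w hw0 hw (hellk.trans hdep)
      linarith
    have hM2 : η * (m (KK m J G D0 a) : ℝ) / 2 ≤ ⌊η * (m (KK m J G D0 a) : ℝ)⌋₊ := by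
      have h1 := Nat.lt_floor_add_one (η * (m (KK m J G D0 a) : ℝ))
      have h2 := hηm a
      linarith
    have hvM : ‖v‖ ^ ⌊η * (m (KK m J G D0 a) : ℝ)⌋₊ * (2 * (L + Real.exp (D0 / 2)))
        ≤ Real.exp (-(4 * (L + 1) * T)) / 2 := by
      rw [hnv, ← Real.exp_nat_mul]
      have h1 : (A0 + 1) * T ≤ ⌊η * (m (KK m J G D0 a) : ℝ)⌋₊ * (dep w - y) := by
        calc (A0 + 1) * T = η * (m (KK m J G D0 a) : ℝ) / 2 * (T / (κ * m (KK m J G D0 a)) / 2) := by
              have := (hmKpos a).ne'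
              rw [hκ]
              field_simp
              ring
          _ ≤ ⌊η * (m (KK m J G D0 a) : ℝ)⌋₊ * (dep w - y) := by
              rw [← hell]
              exact mul_le_mul hM2 hdv (by have := hellpos i; positivity) (Nat.cast_nonneg _)
      have h2 : Real.exp (⌊η * (m (KK m J G D0 a) : ℝ)⌋₊ * -(dep w - y)) ≤ Real.exp (-(A0 * T) + -T) := by
        rw [Real.exp_le_exp]; linarith
      rw [Real.exp_add] at h2
      have h3 : Real.exp D0 ≤ Real.exp T := by rw [Real.exp_le_exp]; exact hDT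
      have h4 : 4 * (L + Real.exp (D0 / 2)) ≤ Real.exp T := by linarith
      have h5 : Real.exp (-T) * Real.exp T = 1 := by rw [← Real.exp_add, neg_add_cancel, Real.exp_zero]
      have h6 := Real.exp_pos (-T)
      have h7 := Real.exp_pos (-(A0 * T))
      have h8 : 0 < L + Real.exp (D0 / 2) := by have := Real.exp_pos (D0 / 2); linarith
      calc Real.exp (⌊η * (m (KK m J G D0 a) : ℝ)⌋₊ * -(dep w - y)) * (2 * (L + Real.exp (D0 / 2)))
          ≤ Real.exp (-(A0 * T)) * Real.exp (-T) * (2 * (L + Real.exp (D0 / 2))) :=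
            mul_le_mul_of_nonneg_right h2 (by positivity)
        _ = Real.exp (-(A0 * T)) * (Real.exp (-T) * (4 * (L + Real.exp (D0 / 2)))) / 2 := by ring
        _ ≤ Real.exp (-(A0 * T)) * (Real.exp (-T) * Real.exp T) / 2 := by
            have := mul_le_mul_of_nonneg_left (mul_le_mul_of_nonneg_left h4 h6.le) h7.le
            linarith
        _ = Real.exp (-(4 * (L + 1) * T)) / 2 := by rw [h5, mul_one]
    have hc1 : q (Real.exp (-(4 * (L + 1) * T))) v ≤ 1 - 5 / 8 / (L + 1) :=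
      core hRI0 h hD18 hc hLB hK1 (lt_of_le_of_lt hai hik) hy hvne hv1 hBv h0 hvM
    have hmono : q (Real.exp (-(A0 * (2 ^ i * D0)))) v ≤ q (Real.exp (-(4 * (L + 1) * T))) v := by
      rw [hq]
      simp only
      unfold PI
      refine integral_mono (integrable_P_ind hv1 hf _) (integrable_P_ind hv1 hf _) fun θ => ?_
      refine mul_le_mul_of_nonneg_left ?_ (P_pos hv1 θ).le
      have hle : Real.exp (-(A0 * (2 ^ i * D0))) ≤ Real.exp (-(4 * (L + 1) * T)) := by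
        rw [Real.exp_le_exp, hTdef]
        have h1 : (2 : ℝ) ^ a ≤ 2 ^ i := pow_le_pow_right₀ (by norm_num) hai
        have h2 : (2 : ℝ) ^ a * D0 ≤ 2 ^ i * D0 := mul_le_mul_of_nonneg_right h1 hDpos.le
        have h3 : A0 * (2 ^ a * D0) ≤ A0 * (2 ^ i * D0) := mul_le_mul_of_nonneg_left h2 (by linarith)
        linarith
      beta_reduce
      split_ifs with u1 u2 u2
      · exact le_rfl
      · exact absurd (u1.trans hle) u2
      · norm_num
      · exact le_rfl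
    have e3 : 1 / (10 * ((L : ℝ) + 1)) = 1 / 10 / (L + 1) := by rw [div_div]
    have e5 : 1 / 10 / ((L : ℝ) + 1) ≤ 5 / 8 / (L + 1) := by
      refine div_le_div_of_nonneg_right (by norm_num) (by positivity)
    rw [e3]
    linarith

end

end Pool.Agent.Run7.h862.Q2
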