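import Pool.Agent.Run7.h862.Q2.RI0

set_option autoImplicit false

/-!
# MP_5bfbcb_an, Q2: piece RI1, preparations

Semigroup property of the Poisson kernel, bounds of the Poisson kernel, upper bound for the
logarithmic integral.
-/

namespace Pool.Agent.Run7.h862.Q2

open MeasureTheory AddCircle Complex Set Filter Topology Pool.Agent.W767.HL Pool.Agent.Run7.h104.Q2

noncomputable section

/-- Poisson formula. -/
lemma poissonD {f : ℂ → ℂ} (hf : DiffContOnCl ℂ f (Metric.ball 0 1)) {w : ℂ} (hw : ‖w‖ < 1) :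
    ∫ θ, (P w θ : ℂ) * f (ze θ) ∂mu = f w := by
  have h := hf.circleAverage_poissonKernel_smul
    (w := w) (c := 0) (R := 1) (by simpa using hw)
  rw [← integral_ze] at h
  rw [← h]
  refine integral_congr_ae (Filter.Eventually.of_forall fun θ => ?_)
  simp only [Pi.smul_apply', poissonKernel_def, sub_zero, norm_ze, P, real_smul]
  push_cast
  ring

lemma P_eq_re (z : ℂ) (t : Ci) : P z t = ((ze t + z) / (ze t - z)).re := by
  have h1 : (ze t).re * (ze t).re + (ze t).im * (ze t).im = 1 := by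
    rw [← Complex.normSq_apply, Complex.normSq_eq_norm_sq, norm_ze]; norm_num
  unfold P
  rw [Complex.div_re, ← add_div, Complex.normSq_eq_norm_sq]
  congr 1
  rw [Complex.sq_norm, Complex.normSq_apply]
  simp only [add_re, sub_re, add_im, sub_im]
  linarith

lemma P_semi {v : ℂ} (hv : ‖v‖ < 1) {r : ℝ} (hr0 : 0 < r) (hr1 : r < 1) (t : Ci) :
    ∫ θ, P v θ * P ((r : ℂ) * ze θ) t ∂mu = P ((r : ℂ) * v) t := by
  set F : ℂ → ℂ := fun z => (ze t + (r : ℂ) * z) / (ze t - (r : ℂ) * z) with hF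
  have hne : ∀ z : ℂ, ‖z‖ ≤ 1 → ze t - (r : ℂ) * z ≠ 0 := by
    intro z hz h
    have h1 : ze t = (r : ℂ) * z := sub_eq_zero.1 h
    have h2 : ‖ze t‖ = r * ‖z‖ := by
      rw [h1, norm_mul, Complex.norm_real, Real.norm_of_nonneg hr0.le]
    rw [norm_ze] at h2
    nlinarith [norm_nonneg z]
  have hd : DiffContOnCl ℂ F (Metric.ball 0 1) := by
    refine DifferentiableOn.diffContOnCl fun z hz => ?_
    rw [closure_ball _ one_ne_zero, Metric.mem_closedBall, dist_zero_right] at hz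
    have h1 : DifferentiableAt ℂ (fun z : ℂ => (r : ℂ) * z) z := differentiableAt_id.const_mul _
    exact ((h1.const_add (ze t)).div (h1.const_sub (ze t)) (hne z hz)).differentiableWithinAt
  have h := poissonD hd hv
  have hc : Continuous fun θ => F (ze θ) := by
    refine Continuous.div ?_ ?_ ?_
    · exact continuous_const.add (continuous_const.mul continuous_ze)
    · exact continuous_const.sub (continuous_const.mul continuous_ze)
    · intro θ
      exact hne _ (norm_ze θ).le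
  have hi2 := integrable_P_mul hv (integrable_of_cont hc)
  have h2 := integral_re (𝕜 := ℂ) (μ := mu) (f := fun θ => (P v θ : ℂ) * F (ze θ)) (by
    simpa only [real_smul] using hi2)
  simp only [RCLike.re_eq_complex_re] at h2
  rw [h] at h2
  rw [P_eq_re]
  rw [hF] at h2
  simp only at h2
  rw [← h2]
  refine integral_congr_ae (Filter.Eventually.of_forall fun θ => ?_)
  simp only
  rw [P_eq_re ((r : ℂ) * ze θ) t, Complex.re_ofReal_mul]

lemma norm_pt (y : ℝ) (θ : Ci) : ‖pt y θ‖ = Real.exp (-y) := by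
  unfold pt
  rw [norm_mul, norm_ze, mul_one, Complex.norm_real, Real.norm_of_nonneg (Real.exp_pos _).le]

lemma PI_semi {v : ℂ} (hv : ‖v‖ < 1) {y : ℝ} (hy : 0 < y) {φ : Ci → ℝ} (hφ : Continuous φ) :
    Integrable (fun θ => P v θ * PI φ (pt y θ)) mu ∧
      ∫ θ, P v θ * PI φ (pt y θ) ∂mu = PI φ ((Real.exp (-y) : ℂ) * v) := by
  set r := Real.exp (-y) with hr
  have hr0 : 0 < r := Real.exp_pos _
  have hr1 : r < 1 := by rw [hr, Real.exp_lt_one_iff]; linarith
  have hcP : Continuous fun p : Ci × Ci => P (pt y p.1) p.2 := by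
    unfold P
    refine Continuous.div ?_ ?_ ?_
    · simp only [norm_pt]
      exact continuous_const
    · unfold pt
      exact ((continuous_ze.comp continuous_snd).sub
        (continuous_const.mul (continuous_ze.comp continuous_fst))).norm.pow 2
    · intro p
      have h1 := dist_pos (pt y p.1) p.2
      rw [norm_pt] at h1
      have h2 : 0 < ‖ze p.2 - pt y p.1‖ := by linarith
      positivity
  have hc : Continuous fun p : Ci × Ci => P v p.1 * (P (pt y p.1) p.2 * φ p.2) :=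
    ((continuous_P hv).comp continuous_fst).mul (hcP.mul (hφ.comp continuous_snd))
  have hi : Integrable (fun p : Ci × Ci => P v p.1 * (P (pt y p.1) p.2 * φ p.2)) (mu.prod mu) :=
    hc.integrable_of_hasCompactSupport (HasCompactSupport.of_compactSpace _)
  have e1 : (fun θ => P v θ * PI φ (pt y θ)) = fun θ => ∫ t, P v θ * (P (pt y θ) t * φ t) ∂mu := by
    ext θ
    unfold PI
    rw [integral_const_mul]
  refine ⟨?_, ?_⟩
  · rw [e1]
    exact hi.integral_prod_left
  · rw [e1, integral_integral_swap hi]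
    unfold PI
    refine integral_congr_ae (Filter.Eventually.of_forall fun t => ?_)
    simp only
    have e2 : (fun θ => P v θ * (P (pt y θ) t * φ t)) = fun θ => (P v θ * P ((r : ℂ) * ze θ) t) * φ t := by
      ext θ
      change P v θ * (P ((r : ℂ) * ze θ) t * φ t) = _
      ring
    rw [e2, integral_mul_const, P_semi hv hr0 hr1]

lemma P_ge {z : ℂ} {ρ : ℝ} (hz : ‖z‖ ≤ ρ) (hρ : ρ < 1) (θ : Ci) : (1 - ρ) / (1 + ρ) ≤ P z θ := by
  have h1 := dist_pos z θ
  have h2 : ‖ze θ - z‖ ≤ 1 + ‖z‖ := by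
    have := norm_sub_le (ze θ) z
    rwa [norm_ze] at this
  have h0 := norm_nonneg z
  have h3 : 0 < ‖ze θ - z‖ := by linarith
  unfold P
  rw [div_le_div_iff₀ (by linarith) (by positivity)]
  have h4 : ‖ze θ - z‖ ^ 2 ≤ (1 + ‖z‖) ^ 2 := pow_le_pow_left₀ h3.le h2 2
  calc (1 - ρ) * ‖ze θ - z‖ ^ 2 ≤ (1 - ρ) * (1 + ‖z‖) ^ 2 :=
        mul_le_mul_of_nonneg_left h4 (by linarith)
    _ = (1 + ‖z‖) * ((1 - ρ) * (1 + ‖z‖)) := by ring
    _ ≤ (1 + ‖z‖) * ((1 - ‖z‖) * (1 + ρ)) := by
        refine mul_le_mul_of_nonneg_left ?_ (by linarith)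
        nlinarith
    _ = (1 - ‖z‖ ^ 2) * (1 + ρ) := by ring

lemma P_le' {z : ℂ} {ρ : ℝ} (hz : ‖z‖ ≤ ρ) (hρ : ρ < 1) (θ : Ci) : P z θ ≤ (1 + ρ) / (1 - ρ) := by
  have h1 := dist_pos z θ
  have h0 := norm_nonneg z
  have h3 : 0 < ‖ze θ - z‖ := by linarith
  unfold P
  rw [div_le_div_iff₀ (by positivity) (by linarith)]
  have h4 : (1 - ‖z‖) ^ 2 ≤ ‖ze θ - z‖ ^ 2 := pow_le_pow_left₀ (by linarith) h1 2
  calc (1 - ‖z‖ ^ 2) * (1 - ρ) = (1 - ‖z‖) * ((1 + ‖z‖) * (1 - ρ)) := by ring
    _ ≤ (1 - ‖z‖) * ((1 - ‖z‖) * (1 + ρ)) := by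
        refine mul_le_mul_of_nonneg_left ?_ (by linarith)
        nlinarith
    _ = (1 + ρ) * (1 - ‖z‖) ^ 2 := by ring
    _ ≤ (1 + ρ) * ‖ze θ - z‖ ^ 2 := mul_le_mul_of_nonneg_left h4 (by linarith)

lemma integrable_P_cont {v : ℂ} (hv : ‖v‖ < 1) {φ : Ci → ℝ} (hφ : Continuous φ) :
    Integrable (fun θ => P v θ * φ θ) mu := integrable_of_cont ((continuous_P hv).mul hφ)

/-- `PI |g| ≤ (1 + PI |g|^2) / 2`. -/
lemma PI_le_sq {v : ℂ} (hv : ‖v‖ < 1) {g : Ci → ℂ} (hg : Continuous g) :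
    PI (fun θ => ‖g θ‖) v ≤ (1 + PI (fun θ => ‖g θ‖ ^ 2) v) / 2 := by
  unfold PI
  have hsq : Continuous fun θ => ‖g θ‖ ^ 2 := hg.norm.pow 2
  have h1 : ∫ θ, P v θ * ‖g θ‖ ∂mu ≤ ∫ θ, (P v θ * (1 / 2) + P v θ * ‖g θ‖ ^ 2 * (1 / 2)) ∂mu := by
    refine integral_mono (integrable_P_cont hv hg.norm)
      ((integrable_P_cont hv continuous_const).add ((integrable_P_cont hv hsq).mul_const _))
      fun θ => ?_
    have h2 := P_pos hv θ
    simp only
    nlinarith [mul_nonneg h2.le (sq_nonneg (‖g θ‖ - 1))]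
  rw [integral_add (integrable_P_cont hv continuous_const)
    ((integrable_P_cont hv hsq).mul_const _), integral_mul_const, integral_mul_const,
    integral_P hv] at h1
  linarith

lemma measurable_ind {g : Ci → ℂ} (hg : Continuous g) (s : ℝ) :
    Measurable fun θ => if ‖g θ‖ ≤ s then (1 : ℝ) else 0 :=
  Measurable.ite (isClosed_le hg.norm continuous_const).measurableSet measurable_const measurable_const

lemma integrable_ind {g : Ci → ℂ} (hg : Continuous g) (s : ℝ) :
    Integrable (fun θ => if ‖g θ‖ ≤ s then (1 : ℝ) else 0) mu := by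
  refine Integrable.mono' (integrable_const (1 : ℝ)) (measurable_ind hg s).aestronglyMeasurable
    (Filter.Eventually.of_forall fun θ => ?_)
  split_ifs <;> simp

lemma integrable_P_ind {v : ℂ} (hv : ‖v‖ < 1) {g : Ci → ℂ} (hg : Continuous g) (s : ℝ) :
    Integrable (fun θ => P v θ * if ‖g θ‖ ≤ s then (1 : ℝ) else 0) mu := by
  simpa using integrable_P_mul hv (integrable_ind hg s)

/-- Upper bound for the logarithmic integral. -/
lemma La_up {v : ℂ} (hv : ‖v‖ < 1) {L : ℕ} (hL : 0 < L) {s : ℝ} (hs0 : 0 < s) (hs1 : s ≤ 1)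
    {g : Ci → ℂ} (hg : Continuous g) {B : ℝ} (hB0 : 0 ≤ B) (hB : ∫ θ, P v θ * ‖g θ‖ ∂mu ≤ B) :
    La v (L * s ^ 2) g ≤ 2 * (PI (fun θ => if ‖g θ‖ ≤ s then 1 else 0) v * Real.log s)
      + Real.log (L + 1) + 2 * Real.log (L + B) := by
  have hL1 : (1 : ℝ) ≤ L := by exact_mod_cast hL
  have hLB : 0 < L + B := by linarith
  set κ := Real.log (L + 1) + 2 * (Real.log (L + B) + L / (L + B) - 1) with hκ
  have hlogs : Real.log s ≤ 0 := Real.log_nonpos hs0.le hs1
  have htan : ∀ x : ℝ, 0 ≤ x → Real.log (L + x) ≤ Real.log (L + B) + (L + x) / (L + B) - 1 := by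
    intro x hx
    have h1 := Real.log_le_sub_one_of_pos (show 0 < (L + x) / (L + B) by positivity)
    rw [Real.log_div (by positivity) hLB.ne'] at h1
    linarith
  have hpt : ∀ θ, Real.log (L * s ^ 2 + ‖g θ‖ ^ 2) ≤
      (if ‖g θ‖ ≤ s then (1 : ℝ) else 0) * (2 * Real.log s) + κ + ‖g θ‖ * (2 / (L + B)) := by
    intro θ
    have h0 := norm_nonneg (g θ)
    have h1 := htan ‖g θ‖ h0
    have h2 : 0 ≤ Real.log (L + ‖g θ‖) := Real.log_nonneg (by linarith)
    have h3 : 0 ≤ Real.log ((L : ℝ) + 1) := Real.log_nonneg (by linarith)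
    have e : κ + ‖g θ‖ * (2 / (L + B)) = Real.log (L + 1) + 2 * (Real.log (L + B) + (L + ‖g θ‖) / (L + B) - 1) := by
      rw [hκ]
      field_simp
      ring
    rw [add_assoc, e]
    split_ifs with h
    · have h4 : Real.log (L * s ^ 2 + ‖g θ‖ ^ 2) ≤ Real.log ((L + 1) * s ^ 2) := by
        refine Real.log_le_log (by positivity) ?_
        have := pow_le_pow_left₀ h0 h 2
        nlinarith
      rw [Real.log_mul (by positivity) (by positivity), Real.log_pow] at h4
      push_cast at h4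
      linarith
    · have h4 : Real.log (L * s ^ 2 + ‖g θ‖ ^ 2) ≤ Real.log ((L + ‖g θ‖) ^ 2) := by
        refine Real.log_le_log (by positivity) ?_
        have h5 : s ^ 2 ≤ 1 := pow_le_one₀ hs0.le hs1
        have h6 : (L : ℝ) * s ^ 2 ≤ L ^ 2 := by nlinarith
        nlinarith [mul_nonneg (Nat.cast_nonneg (α := ℝ) L) h0]
      rw [Real.log_pow] at h4
      push_cast at h4
      linarith
  have i1 := (integrable_P_ind hv hg s).mul_const (2 * Real.log s)
  have i2 : Integrable (fun θ => P v θ * κ) mu := integrable_P_cont hv continuous_const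
  have i3 := (integrable_P_cont hv hg.norm).mul_const (2 / (L + B))
  have h1 : La v (L * s ^ 2) g ≤ ∫ θ, ((P v θ * if ‖g θ‖ ≤ s then (1 : ℝ) else 0) * (2 * Real.log s) + P v θ * κ
      + P v θ * ‖g θ‖ * (2 / (L + B))) ∂mu := by
    unfold La
    refine integral_mono (integrable_P_log hv (by positivity) (integrable_of_cont hg))
      ((i1.add i2).add i3) fun θ => ?_
    have := mul_le_mul_of_nonneg_left (hpt θ) (P_pos hv θ).le
    simp only
    refine this.trans (le_of_eq ?_)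
    ring
  have i12 : Integrable (fun θ => (P v θ * if ‖g θ‖ ≤ s then (1 : ℝ) else 0) * (2 * Real.log s) + P v θ * κ) mu :=
    i1.add i2
  rw [integral_add i12 i3, integral_add i1 i2, integral_mul_const, integral_mul_const,
    integral_mul_const, integral_P hv] at h1
  refine h1.trans ?_
  have h2 : (∫ θ, P v θ * ‖g θ‖ ∂mu) * (2 / (L + B)) ≤ B * (2 / (L + B)) :=
    mul_le_mul_of_nonneg_right hB (by positivity)
  have h3 : 1 * κ + B * (2 / (L + B)) = Real.log (L + 1) + 2 * Real.log (L + B) := by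
    rw [hκ]
    field_simp
    ring
  unfold PI
  linarith

/-- The arithmetic of the core estimate. -/
lemma core_arith {L : ℕ} (hL : 0 < L) {D T q B X : ℝ} (hD0 : 0 < D) (hDT : D ≤ T)
    (hc : 2 * Real.log L + Real.log 2 + 4 * Real.log 2 + Real.log (L + 1) ≤ D)
    (hB : B = Real.exp (D / 2)) (hLB : (L : ℝ) ≤ B)
    (h1 : 2 * ((L * (-(4 * (L + 1) * T)) + (-T - Real.log 2 / 2) - Real.log L) / (L + 1) - Real.log 2) ≤ X)
    (h2 : X ≤ 2 * (q * (-(4 * (L + 1) * T))) + Real.log (L + 1) + 2 * Real.log (L + B)) :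
    q ≤ 1 - 5 / 8 / (L + 1) := by
  have hL1 : (1 : ℝ) ≤ L := by exact_mod_cast hL
  have hB0 : 0 < B := by rw [hB]; exact Real.exp_pos _
  have hT : 0 < T := by linarith
  have hlog : Real.log (L + B) ≤ Real.log 2 + D / 2 := by
    have : Real.log (L + B) ≤ Real.log (2 * B) := Real.log_le_log (by positivity) (by linarith)
    rw [Real.log_mul (by norm_num) hB0.ne', hB, Real.log_exp] at this
    rw [hB]
    exact this
  have hl2 : 0 ≤ Real.log 2 := Real.log_nonneg (by norm_num)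
  have hlL : 0 ≤ Real.log (L : ℝ) := Real.log_nonneg hL1
  have hlL1 : 0 ≤ Real.log ((L : ℝ) + 1) := Real.log_nonneg (by linarith)
  have e1 : 2 * ((L * (-(4 * (L + 1) * T)) + (-T - Real.log 2 / 2) - Real.log L) / (L + 1) - Real.log 2)
      = -(8 * L * T) - 2 * (T + Real.log 2 / 2 + Real.log L) / (L + 1) - 2 * Real.log 2 := by
    field_simp
    ring
  have e2 : 2 * (T + Real.log 2 / 2 + Real.log L) / (L + 1) ≤ T + Real.log 2 / 2 + Real.log L := by
    rw [div_le_iff₀ (by linarith)]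
    have : 0 ≤ T + Real.log 2 / 2 + Real.log L := by positivity
    nlinarith
  have h3 : 8 * (L + 1) * T * q ≤ 8 * L * T + 3 * T := by
    nlinarith
  have h4 : q ≤ (8 * L * T + 3 * T) / (8 * (L + 1) * T) := by
    rw [le_div_iff₀ (by positivity)]
    linarith
  refine h4.trans (le_of_eq ?_)
  field_simp
  ring

end

end Pool.Agent.Run7.h862.Q2
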